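import Pool.Agent.N399.BH.Cls

/-!
# Class norms of the divisors of `X^(pq) - 1`
-/

set_option autoImplicit false

namespace Pool.Agent.N399.BH

open Polynomial Finset Pool.Agent.N944.BH

theorem CB.add {q : ℕ} {c d : ℤ} {A B : ℤ[X]} (hA : CB q c A) (hB : CB q d B) :
    CB q (c + d) (A + B) := by
  intro j hj N
  calc _ ≤ ∑ i ∈ range N, (|A.coeff (j + q * i)| + |B.coeff (j + q * i)|) := by
        apply Finset.sum_le_sum
        intro i _
        rw [coeff_add]
        exact abs_add_le _ _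
    _ ≤ _ := by
        rw [Finset.sum_add_distrib]
        exact add_le_add (hA j hj N) (hB j hj N)

theorem CB.neg {q : ℕ} {c : ℤ} {A : ℤ[X]} (hA : CB q c A) : CB q c (-A) := by
  intro j hj N
  simpa only [coeff_neg, abs_neg] using hA j hj N

theorem CB.sub {q : ℕ} {c d : ℤ} {A B : ℤ[X]} (hA : CB q c A) (hB : CB q d B) :
    CB q (c + d) (A - B) := by
  rw [sub_eq_add_neg]; exact hA.add hB.neg

theorem CB.X_mul {q : ℕ} {c : ℤ} {A : ℤ[X]} (hA : CB q c A) : CB q c (X * A) := by
  intro j hj N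
  rcases Nat.eq_zero_or_pos j with h0 | h0
  · subst h0
    cases N with
    | zero => simpa using hA 0 hj 0
    | succ N =>
      rw [Finset.sum_range_succ']
      have h1 : (X * A).coeff (0 + q * 0) = 0 := by simp
      rw [h1, abs_zero, add_zero]
      refine le_trans (le_of_eq ?_) (hA (q - 1) (by omega) N)
      apply Finset.sum_congr rfl
      intro i _
      rw [show 0 + q * (i + 1) = (q - 1 + q * i) + 1 by rw [mul_add]; omega, coeff_X_mul]
  · refine le_trans (le_of_eq ?_) (hA (j - 1) (by omega) N)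
    apply Finset.sum_congr rfl
    intro i _
    rw [show j + q * i = (j - 1 + q * i) + 1 by omega, coeff_X_mul]

theorem CB.X_pow_mul {q : ℕ} {c : ℤ} {A : ℤ[X]} (hA : CB q c A) (k : ℕ) :
    CB q c (X ^ k * A) := by
  induction k with
  | zero => simpa using hA
  | succ k ih =>
    rw [pow_succ', mul_assoc]; exact ih.X_mul

theorem CB.zero {q : ℕ} : CB q 0 (0 : ℤ[X]) := by
  intro j _ N; simp

theorem CB.geom_mul {q : ℕ} {A : ℤ[X]} (hA : CB q 1 A) (p : ℕ) :
    CB q p ((∑ i ∈ range p, X ^ i) * A) := by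
  induction p with
  | zero => simpa using CB.zero
  | succ p ih =>
    rw [Finset.sum_range_succ, add_mul]
    push_cast
    exact ih.add (hA.X_pow_mul p)

/-- the four products of `Φ_1` and `Φ_p` times a polynomial with class norm one -/
theorem CB.four {p q : ℕ} (hp : 2 ≤ p) {Q : ℤ[X]} (hQ : CB q 1 Q) :
    CB q p Q ∧ CB q p ((X - 1) * Q) ∧ CB q p ((∑ i ∈ range p, X ^ i) * Q) ∧
      CB q p ((X - 1) * (∑ i ∈ range p, X ^ i) * Q) := by
  have hp' : (2 : ℤ) ≤ p := by exact_mod_cast hp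
  refine ⟨hQ.mono (by linarith), ?_, hQ.geom_mul p, ?_⟩
  · have h := (hQ.X_mul).sub hQ
    rw [show (X - 1) * Q = X * Q - Q by ring]
    exact h.mono (by linarith)
  · have h := (hQ.X_pow_mul p).sub hQ
    rw [show (X - 1) * (∑ i ∈ range p, (X : ℤ[X]) ^ i) * Q
      = ((∑ i ∈ range p, (X : ℤ[X]) ^ i) * (X - 1)) * Q by ring, geom_sum_mul, sub_mul, one_mul]
    exact h.mono (by linarith)

theorem CB.one' {q : ℕ} (hq : 0 < q) : CB q 1 (1 : ℤ[X]) := by
  intro j _ N
  have h : ∀ i ∈ range N, |(1 : ℤ[X]).coeff (j + q * i)| ≤ if i = 0 then 1 else 0 := by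
    intro i _
    rw [coeff_one]
    split_ifs with h1 h2
    · simp
    · exfalso
      have : 0 < q * i := Nat.mul_pos hq (Nat.pos_of_ne_zero h2)
      omega
    · simp
    · simp
  refine (Finset.sum_le_sum h).trans ?_
  rw [Finset.sum_ite_eq']
  split_ifs <;> simp

theorem CB.geom {q : ℕ} : CB q 1 (∑ i ∈ range q, (X : ℤ[X]) ^ i) := by
  intro j _ N
  have h : ∀ i ∈ range N, |(∑ i ∈ range q, (X : ℤ[X]) ^ i).coeff (j + q * i)|
      ≤ if i = 0 then 1 else 0 := by
    intro i _
    rw [geomCoeff']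
    split_ifs with h1 h2
    · simp
    · exfalso
      have : q * 1 ≤ q * i := Nat.mul_le_mul_left q (Nat.pos_of_ne_zero h2)
      omega
    · simp
    · simp
  refine (Finset.sum_le_sum h).trans ?_
  rw [Finset.sum_ite_eq']
  split_ifs <;> simp

/-- `1 + X^p + ... + X^(p(q-1))` -/
noncomputable def E (p q : ℕ) : ℤ[X] := ∑ a ∈ range q, (X : ℤ[X]) ^ (p * a)

theorem E_coeff (p q n : ℕ) (hp : 0 < p) :
    (E p q).coeff n = if ∃ a < q, n = p * a then 1 else 0 := by
  unfold E
  rw [finsetSum_coeff]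
  split_ifs with h
  · obtain ⟨a, ha, rfl⟩ := h
    rw [Finset.sum_eq_single a]
    · rw [coeff_X_pow, if_pos rfl]
    · intro b _ hb
      rw [coeff_X_pow, if_neg]
      intro h1
      exact hb (Nat.eq_of_mul_eq_mul_left hp h1).symm
    · intro h1; exact absurd (Finset.mem_range.mpr ha) h1
  · apply Finset.sum_eq_zero
    intro a ha
    rw [Finset.mem_range] at ha
    rw [coeff_X_pow, if_neg]
    intro h1
    exact h ⟨a, ha, h1⟩

/-- the single nonzero coefficient of `X^s E` in a residue class -/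
theorem class_E {p q s j : ℕ} (hp : 0 < p) (hcop : Nat.Coprime p q) (hs : s < p) (hj : j < q) :
    ∃ t < p, (j + q * t) % p = s ∧
      ∀ i, (X ^ s * E p q).coeff (j + q * i) = if i = t then 1 else 0 := by
  have hq : 0 < q := by omega
  -- a with p a + s ≡ j mod q
  obtain ⟨a, haq, ha⟩ : ∃ a < q, (s + p * a) % q = j := by
    obtain ⟨k, hkq, hk⟩ := Nat.exists_mul_mod_eq_of_coprime (j + (q - 1) * s) hcop hq.ne'
    refine ⟨k, hkq, ?_⟩
    rw [Nat.add_mod, hk, ← Nat.add_mod,
      show s + (j + (q - 1) * s) = j + q * s by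
        obtain ⟨r, rfl⟩ : ∃ r, q = r + 1 := ⟨q - 1, by omega⟩
        rw [Nat.add_sub_cancel]; ring, Nat.add_mul_mod_self_left, Nat.mod_eq_of_lt hj]
  have hn : j + q * ((s + p * a) / q) = s + p * a := by
    rw [← ha]; exact Nat.mod_add_div _ _
  refine ⟨(s + p * a) / q, ?_, ?_, ?_⟩
  · rw [Nat.div_lt_iff_lt_mul hq]
    have : p * (a + 1) ≤ p * q := Nat.mul_le_mul_left p (by omega)
    rw [mul_add] at this
    omega
  · rw [hn, Nat.add_mul_mod_self_left, Nat.mod_eq_of_lt hs]
  · intro i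
    rw [coeff_X_pow_mul', E_coeff _ _ _ hp]
    by_cases hi : i = (s + p * a) / q
    · subst hi
      rw [hn, if_pos (by omega), if_pos ⟨a, haq, by omega⟩, if_pos rfl]
    · rw [if_neg hi]
      split_ifs with h1 h2
      · exfalso
        apply hi
        obtain ⟨a', ha', h3⟩ := h2
        have h4 : j + q * i = s + p * a' := by omega
        have h5 : a' = a := by
          have e : (p : ℤ) * ((a' : ℤ) - a) = q * ((i : ℤ) - ((s + p * a) / q : ℕ)) := by
            have e1 := congrArg (Nat.cast : ℕ → ℤ) h4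
            have e2 := congrArg (Nat.cast : ℕ → ℤ) hn
            push_cast at e1 e2 ⊢
            linarith
          have hd : (q : ℤ) ∣ (a' : ℤ) - a := by
            have hc : IsCoprime (q : ℤ) p := Nat.isCoprime_iff_coprime.mpr hcop.symm
            exact hc.dvd_of_dvd_mul_left ⟨_, e⟩
          have := Int.eq_zero_of_abs_lt_dvd hd (by rw [abs_lt]; constructor <;> omega)
          omega
        subst h5
        have h6 : q * i = q * ((s + p * a') / q) := by omega
        exact Nat.eq_of_mul_eq_mul_left hq h6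
      · rfl
      · rfl

/-- sums over a residue class -/
theorem class_sum_E {p q s j : ℕ} (hp : 0 < p) (hcop : Nat.Coprime p q) (hs : s < p) (hj : j < q) :
    ∃ t < p, (j + q * t) % p = s ∧
      ∀ i, ∑ k ∈ range (i + 1), (X ^ s * E p q).coeff (j + q * k) = if t ≤ i then 1 else 0 := by
  obtain ⟨t, ht, h1, h2⟩ := class_E hp hcop hs hj
  refine ⟨t, ht, h1, fun i => ?_⟩
  rw [Finset.sum_congr rfl (fun k _ => h2 k), Finset.sum_ite_eq']
  simp only [Finset.mem_range, Nat.lt_succ_iff]

theorem CB.E {p q : ℕ} (hp : 0 < p) (hcop : Nat.Coprime p q) : CB q 1 (E p q) := by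
  intro j hj N
  obtain ⟨t, -, -, h⟩ := class_E (s := 0) hp hcop hp hj
  have h' : ∀ i ∈ range N, |(BH.E p q).coeff (j + q * i)| = if i = t then 1 else 0 := by
    intro i _
    have := h i
    rw [pow_zero, one_mul] at this
    rw [this]
    split_ifs <;> simp
  rw [Finset.sum_congr rfl h', Finset.sum_ite_eq']
  split_ifs <;> simp

theorem quot_coeff {q : ℕ} {U S : ℤ[X]} (h : U * (X ^ q - 1) = S) {j : ℕ} (hj : j < q) (i : ℕ) :
    U.coeff (j + q * i) = -∑ k ∈ range (i + 1), S.coeff (j + q * k) := by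
  have key : ∀ n, S.coeff n = (if q ≤ n then U.coeff (n - q) else 0) - U.coeff n := by
    intro n
    rw [← h, mul_sub, mul_one, coeff_sub, coeff_mul_X_pow']
  induction i with
  | zero =>
    simp only [zero_add, Finset.sum_range_one, mul_zero, add_zero]
    rw [key, if_neg (by omega)]
    ring
  | succ i ih =>
    rw [Finset.sum_range_succ, neg_add, ← ih, key (j + q * (i + 1)),
      if_pos (by rw [mul_add]; omega), show j + q * (i + 1) - q = j + q * i by rw [mul_add]; omega]
    ring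

theorem step_sum (u v N : ℕ) :
    ∑ i ∈ range N, |(if u ≤ i then (1 : ℤ) else 0) - (if v ≤ i then 1 else 0)|
      ≤ |(u : ℤ) - v| := by
  have h : ∀ i ∈ range N, |(if u ≤ i then (1 : ℤ) else 0) - (if v ≤ i then 1 else 0)|
      = if i ∈ Finset.Ico (min u v) (max u v) then 1 else 0 := by
    intro i _
    simp only [Finset.mem_Ico]
    by_cases h1 : u ≤ i <;> by_cases h2 : v ≤ i
    · rw [if_pos h1, if_pos h2, if_neg (by omega)]; simp
    · rw [if_pos h1, if_neg h2, if_pos (by omega)]; simp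
    · rw [if_neg h1, if_pos h2, if_pos (by omega)]; simp
    · rw [if_neg h1, if_neg h2, if_neg (by omega)]; simp
  rw [Finset.sum_congr rfl h, Finset.sum_ite_mem, Finset.sum_const, nsmul_one]
  have h1 : (range N ∩ Finset.Ico (min u v) (max u v)).card ≤ max u v - min u v := by
    refine (Finset.card_le_card Finset.inter_subset_right).trans ?_
    rw [Nat.card_Ico]
  have h2 : ((max u v - min u v : ℕ) : ℤ) = |(u : ℤ) - v| := by
    rcases le_total u v with h | h
    · rw [max_eq_right h, min_eq_left h, abs_sub_comm, abs_of_nonneg (by omega)]; omega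
    · rw [max_eq_left h, min_eq_right h, abs_of_nonneg (by omega)]; omega
  rw [← h2]
  exact_mod_cast h1

/-- `Φ_pq` -/
theorem CB.flat {p q : ℕ} (hp : 2 ≤ p) (hcop : Nat.Coprime p q) {U : ℤ[X]}
    (h : U * (X ^ q - 1) = (X - 1) * BH.E p q) : CB q p U := by
  intro j hj N
  obtain ⟨t0, ht0, -, h0⟩ := class_sum_E (s := 0) (by omega) hcop (by omega) hj
  obtain ⟨t1, ht1, -, h1⟩ := class_sum_E (s := 1) (by omega) hcop (by omega) hj
  have hc : ∀ i ∈ range N, |U.coeff (j + q * i)|
      = |(if t0 ≤ i then (1 : ℤ) else 0) - (if t1 ≤ i then 1 else 0)| := by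
    intro i _
    rw [quot_coeff h hj, ← h0 i, ← h1 i, ← Finset.sum_sub_distrib, abs_neg, ← abs_neg]
    congr 1
    rw [← Finset.sum_neg_distrib]
    apply Finset.sum_congr rfl
    intro k _
    rw [← coeff_sub, ← coeff_neg]
    congr 1
    ring
  rw [Finset.sum_congr rfl hc]
  refine (step_sum t0 t1 N).trans ?_
  rw [abs_le]; constructor <;> omega

/-- `Φ_1 Φ_pq` -/
theorem CB.flat2 {p q : ℕ} (hp : 3 ≤ p) (hcop : Nat.Coprime p q) {U : ℤ[X]}
    (h : U * (X ^ q - 1) = (X - 1) ^ 2 * BH.E p q) : CB q p U := by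
  intro j hj N
  obtain ⟨t0, ht0, m0, h0⟩ := class_sum_E (s := 0) (by omega) hcop (by omega) hj
  obtain ⟨t1, ht1, m1, h1⟩ := class_sum_E (s := 1) (by omega) hcop (by omega) hj
  obtain ⟨t2, ht2, m2, h2⟩ := class_sum_E (s := 2) (by omega) hcop (by omega) hj
  have hc : ∀ i ∈ range N, |U.coeff (j + q * i)|
      ≤ |(if t1 ≤ i then (1 : ℤ) else 0) - (if t0 ≤ i then 1 else 0)|
        + |(if t1 ≤ i then (1 : ℤ) else 0) - (if t2 ≤ i then 1 else 0)| := by
    intro i _
    refine le_trans (le_of_eq ?_) (abs_add_le _ _)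
    congr 1
    rw [quot_coeff h hj, ← h0 i, ← h1 i, ← h2 i, ← Finset.sum_sub_distrib,
      ← Finset.sum_sub_distrib, ← Finset.sum_add_distrib, ← Finset.sum_neg_distrib]
    apply Finset.sum_congr rfl
    intro k _
    rw [← coeff_sub, ← coeff_sub, ← coeff_add, ← coeff_neg]
    congr 1
    ring
  refine (Finset.sum_le_sum hc).trans ?_
  rw [Finset.sum_add_distrib]
  refine (add_le_add (step_sum t1 t0 N) (step_sum t1 t2 N)).trans ?_
  -- p ∣ t0 + t2 - 2 t1
  have hd : (p : ℤ) ∣ (t0 : ℤ) + t2 - 2 * t1 := by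
    have hc' : IsCoprime (p : ℤ) q := Nat.isCoprime_iff_coprime.mpr hcop
    apply hc'.dvd_of_dvd_mul_left
    have e0 := Nat.div_add_mod (j + q * t0) p
    have e1 := Nat.div_add_mod (j + q * t1) p
    have e2 := Nat.div_add_mod (j + q * t2) p
    rw [m0] at e0
    rw [m1] at e1
    rw [m2] at e2
    refine ⟨((j + q * t0) / p : ℕ) + ((j + q * t2) / p : ℕ) - 2 * ((j + q * t1) / p : ℕ), ?_⟩
    have f0 := congrArg (Nat.cast : ℕ → ℤ) e0
    have f1 := congrArg (Nat.cast : ℕ → ℤ) e1
    have f2 := congrArg (Nat.cast : ℕ → ℤ) e2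
    push_cast at f0 f1 f2 ⊢
    linarith
  obtain ⟨c, hc⟩ := hd
  have hc1 : c < 2 := by
    by_contra hcon
    have : (p : ℤ) * 2 ≤ p * c := mul_le_mul_of_nonneg_left (by omega) (by omega)
    omega
  have hc2 : -2 < c := by
    by_contra hcon
    have : (p : ℤ) * c ≤ p * (-2) := mul_le_mul_of_nonneg_left (by omega) (by omega)
    omega
  have hc3 : c = -1 ∨ c = 0 ∨ c = 1 := by omega
  rcases hc3 with rfl | rfl | rfl <;>
    rcases abs_cases ((t1 : ℤ) - t0) with ⟨g1, g1'⟩ | ⟨g1, g1'⟩ <;>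
    rcases abs_cases ((t1 : ℤ) - t2) with ⟨g2, g2'⟩ | ⟨g2, g2'⟩ <;> rw [g1, g2] <;> omega

/-- `Φ_p(X^q)` times a flat polynomial of degree less than `q` -/
theorem CB.expand_geom {p q : ℕ} (hq : 0 < q) {A : ℤ[X]} (hA : ∀ k, q ≤ k → A.coeff k = 0)
    (hA1 : ∀ k, |A.coeff k| ≤ 1) : CB q p (A * expand ℤ q (∑ i ∈ range p, X ^ i)) := by
  intro j hj N
  have h : ∀ i ∈ range N, |(A * expand ℤ q (∑ i ∈ range p, X ^ i)).coeff (j + q * i)|
      ≤ if i ∈ range p then 1 else 0 := by
    intro i _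
    rw [coeff_mul_expand hq _ _ hA, Nat.add_mul_mod_self_left, Nat.mod_eq_of_lt hj,
      Nat.add_mul_div_left _ _ hq, Nat.div_eq_of_lt hj, zero_add, geomCoeff', abs_mul]
    simp only [Finset.mem_range]
    split_ifs with h1
    · simpa using hA1 j
    · simp
  refine (Finset.sum_le_sum h).trans ?_
  rw [Finset.sum_ite_mem, Finset.sum_const, nsmul_one]
  have := Finset.card_le_card (Finset.inter_subset_right (s₁ := range N) (s₂ := range p))
  rw [Finset.card_range] at this
  exact_mod_cast this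

end Pool.Agent.N399.BH
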