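import Pool.Agent.N944.BH.Above

/-!
# Class norms

`CB q c A`: for every residue class modulo `q` the sum of the absolute values of the coefficients
of `A` with index in the class is at most `c`. Then the height of `A * G(X^q)` is at most `c` times
the height of `G`.
-/

set_option autoImplicit false

namespace Pool.Agent.N399.BH

open Polynomial Finset Pool.Agent.N944.BH

/-- all residue classes modulo `q` have `ℓ¹` norm at most `c` -/
def CB (q : ℕ) (c : ℤ) (A : ℤ[X]) : Prop :=
  ∀ j < q, ∀ N : ℕ, ∑ i ∈ range N, |A.coeff (j + q * i)| ≤ c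

theorem CB.mono {q : ℕ} {c d : ℤ} {A : ℤ[X]} (h : CB q c A) (hcd : c ≤ d) : CB q d A :=
  fun j hj N => (h j hj N).trans hcd

/-- coefficients of `A * G(X^q)` -/
theorem coeff_mul_expand' {q : ℕ} (hq : 0 < q) (A G : ℤ[X]) (m : ℕ) :
    (A * expand ℤ q G).coeff m
      = ∑ c ∈ range (m / q + 1), A.coeff (m % q + q * (m / q - c)) * G.coeff c := by
  rw [coeff_mul]
  symm
  apply Finset.sum_of_injOn (fun c => (m % q + q * (m / q - c), q * c))
  · intro a _ b _ hab
    simp only [Prod.mk.injEq] at hab
    exact Nat.eq_of_mul_eq_mul_left hq hab.2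
  · intro c hc
    rw [Finset.coe_range, Set.mem_Iio] at hc
    simp only [Finset.mem_coe, HasAntidiagonal.mem_antidiagonal]
    have : q * (m / q - c) + q * c = q * (m / q) := by
      rw [← mul_add]; congr 1; omega
    have h2 := Nat.mod_add_div m q
    omega
  · rintro ⟨i, j⟩ hij hne
    rw [HasAntidiagonal.mem_antidiagonal] at hij
    dsimp only at hij ⊢
    rw [coeff_expand hq]
    split_ifs with hd
    · exfalso
      apply hne
      obtain ⟨c, rfl⟩ := hd
      have hc : c ≤ m / q := by
        rw [Nat.le_div_iff_mul_le hq, mul_comm]; omega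
      refine ⟨c, ?_, ?_⟩
      · simp only [Finset.coe_range, Set.mem_Iio]; omega
      · have : q * (m / q - c) + q * c = q * (m / q) := by
          rw [← mul_add]; congr 1; omega
        have h2 := Nat.mod_add_div m q
        dsimp only
        congr 1
        omega
    · rw [mul_zero]
  · intro c _
    dsimp only
    rw [coeff_expand hq, if_pos (dvd_mul_right _ _), Nat.mul_div_cancel_left _ hq]

theorem height_mul_expand_le {q c : ℕ} (hq : 0 < q) {A : ℤ[X]} (hA : CB q c A) (G : ℤ[X]) :
    height (A * expand ℤ q G) ≤ c * height G := by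
  rw [height_le_iff]
  intro m
  rw [coeff_mul_expand' hq]
  have h1 : |∑ k ∈ range (m / q + 1), A.coeff (m % q + q * (m / q - k)) * G.coeff k|
      ≤ (c * height G : ℤ) := by
    calc _ ≤ ∑ k ∈ range (m / q + 1), |A.coeff (m % q + q * (m / q - k)) * G.coeff k| :=
          Finset.abs_sum_le_sum_abs _ _
      _ ≤ ∑ k ∈ range (m / q + 1), |A.coeff (m % q + q * (m / q - k))| * (height G : ℤ) := by
          apply Finset.sum_le_sum
          intro k _
          rw [abs_mul]
          apply mul_le_mul_of_nonneg_left _ (abs_nonneg _)
          have := le_height G k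
          rw [Int.abs_eq_natAbs]
          exact_mod_cast this
      _ = (∑ k ∈ range (m / q + 1), |A.coeff (m % q + q * (m / q - k))|) * (height G : ℤ) := by
          rw [Finset.sum_mul]
      _ ≤ _ := by
          apply mul_le_mul_of_nonneg_right _ (Int.natCast_nonneg _)
          have h2 : ∑ k ∈ range (m / q + 1), |A.coeff (m % q + q * (m / q - k))|
              = ∑ i ∈ range (m / q + 1), |A.coeff (m % q + q * i)| := by
            rw [← Finset.sum_range_reflect (fun i => |A.coeff (m % q + q * i)|) (m / q + 1)]
            apply Finset.sum_congr rfl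
            intro k _
            rw [Nat.add_sub_cancel]
          rw [h2]
          exact hA _ (Nat.mod_lt _ hq) _
  rw [Int.abs_eq_natAbs] at h1
  exact_mod_cast h1

end Pool.Agent.N399.BH
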