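import Pool.Agent.N399.BH.Cases

/-!
# `B(p q^b)` is `p` times the largest height of a divisor of `(X^(p q^(b-1)) - 1) / (X^p - 1)`
-/

set_option autoImplicit false

namespace Pool.Agent.N399.BH

open Polynomial Finset Pool.Agent.N944.BH

section ident

variable {p q : ℕ} (hp : p.Prime) (hq : q.Prime) (hpq : p < q)

include hq hpq in
theorem not_dvd (hp : p.Prime) : ¬ q ∣ p := fun h => by
  have := Nat.le_of_dvd hp.pos h
  omega

include hp in
theorem phi_p_geom : cyclotomic p ℤ = ∑ i ∈ range p, X ^ i := by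
  have := Fact.mk hp
  exact cyclotomic_prime ℤ p

include hp hq hpq in
theorem phi_q_pq : cyclotomic q ℤ * cyclotomic (p * q) ℤ = E p q := by
  have h1 : ¬ p ∣ q := fun h => by
    have := (Nat.prime_dvd_prime_iff_eq hp hq).mp h
    omega
  have h := cyclotomic_expand_eq_cyclotomic_mul hp h1 ℤ
  rw [mul_comm q p, mul_comm] at h
  rw [← h, phi_p_geom hq, map_sum]
  unfold E
  apply Finset.sum_congr rfl
  intro i _
  rw [map_pow, expand_X, ← pow_mul]

include hp hq hpq in
theorem phi_p_pq : cyclotomic p ℤ * cyclotomic (p * q) ℤ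
    = expand ℤ q (∑ i ∈ range p, X ^ i) := by
  have h := cyclotomic_expand_eq_cyclotomic_mul hq (not_dvd hq hpq hp) ℤ
  rw [mul_comm, ← h, phi_p_geom hp]

include hp hq hpq in
theorem phi_pq_mul : cyclotomic (p * q) ℤ * (X ^ q - 1) = (X - 1) * E p q := by
  rw [← phi_q_pq hp hq hpq, phi_p_geom hq, ← geom_sum_mul]
  ring

/-- all products of `Φ_1, Φ_p, Φ_q, Φ_pq` have class norms at most `p` -/
theorem cb_all (hp3 : 3 ≤ p) (hp : p.Prime) (hq : q.Prime) (hpq : p < q) (a b c d : Prop)
    [Decidable a] [Decidable b] [Decidable c] [Decidable d] :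
    CB q p ((if a then cyclotomic 1 ℤ else 1) * ((if b then cyclotomic p ℤ else 1) *
      ((if c then cyclotomic q ℤ else 1) * (if d then cyclotomic (p * q) ℤ else 1)))) := by
  have hcop : Nat.Coprime p q := (Nat.coprime_primes hp hq).mpr (by omega)
  have hq0 := hq.pos
  by_cases hc : c
  · by_cases hd : d
    · -- E
      obtain ⟨f1, f2, f3, f4⟩ := CB.four (p := p) (by omega) (CB.E hp.pos hcop)
      simp only [if_pos hc, if_pos hd]
      rw [phi_q_pq hp hq hpq, cyclotomic_one, phi_p_geom hp]
      by_cases ha : a <;> by_cases hb : b <;> simp only [ha, hb, if_true, if_false, one_mul]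
      · rw [← mul_assoc]; exact f4
      · exact f2
      · exact f3
      · exact f1
    · obtain ⟨f1, f2, f3, f4⟩ := CB.four (p := p) (q := q) (by omega) CB.geom
      simp only [if_pos hc, if_neg hd, mul_one]
      rw [cyclotomic_one, phi_p_geom hp, phi_p_geom hq]
      by_cases ha : a <;> by_cases hb : b <;> simp only [ha, hb, if_true, if_false, one_mul]
      · rw [← mul_assoc]; exact f4
      · exact f2
      · exact f3
      · exact f1
  · by_cases hd : d
    · simp only [if_neg hc, if_pos hd, one_mul]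
      by_cases hb : b
      · simp only [if_pos hb]
        rw [phi_p_pq hp hq hpq, cyclotomic_one]
        by_cases ha : a
        · simp only [if_pos ha]
          have hX : ∀ k, (X - 1 : ℤ[X]).coeff k = (if k = 1 then 1 else 0) - (if k = 0 then 1 else 0) := by
            intro k
            rw [coeff_sub, coeff_X, coeff_one]
            simp only [eq_comm]
          apply CB.expand_geom hq0
          · intro k hk
            rw [hX, if_neg (by omega), if_neg (by omega)]; simp
          · intro k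
            rw [hX]
            split_ifs <;> simp_all
        · simp only [if_neg ha]
          apply CB.expand_geom hq0
          · intro k hk
            rw [coeff_one, if_neg (by omega)]
          · intro k
            rw [coeff_one]
            split_ifs <;> simp
      · simp only [if_neg hb, one_mul]
        by_cases ha : a
        · simp only [if_pos ha, cyclotomic_one]
          apply CB.flat2 hp3 hcop
          rw [mul_assoc, phi_pq_mul hp hq hpq]
          ring
        · simp only [if_neg ha, one_mul]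
          exact CB.flat (by omega) hcop (phi_pq_mul hp hq hpq)
    · obtain ⟨f1, f2, f3, f4⟩ := CB.four (p := p) (q := q) (by omega) (CB.one' hq0)
      simp only [if_neg hc, if_neg hd, mul_one]
      rw [cyclotomic_one, phi_p_geom hp]
      simp only [mul_one] at f1 f2 f3 f4
      by_cases ha : a <;> by_cases hb : b <;>
        simp only [ha, hb, if_true, if_false, one_mul, mul_one]
      · exact f4
      · exact f2
      · exact f3
      · exact f1

end ident

/-- lower bound -/
theorem lower_mul {p q b : ℕ} (hp : p.Prime) (hq : q.Prime) (hpq : p < q) {g : ℤ[X]}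
    (hg : g * (X ^ p - 1) ∣ X ^ (p * q ^ b) - 1) : p * height g ≤ B (p * q ^ (b + 1)) := by
  have hpos : 0 < p * q ^ (b + 1) := Nat.mul_pos hp.pos (pow_pos hq.pos _)
  have hne : p ≠ q := by omega
  have hdvd : (cyclotomic p ℤ * cyclotomic q ℤ) * expand ℤ q g ∣ X ^ (p * q ^ (b + 1)) - 1 := by
    have h1 : cyclotomic p ℤ * cyclotomic q ℤ ∣ (X : ℤ[X]) ^ (p * q) - 1 := by
      rw [← prod_cyclotomic_eq_X_pow_sub_one (Nat.mul_pos hp.pos hq.pos) ℤ,
        ← Finset.prod_pair (f := fun i => cyclotomic i ℤ) hne]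
      apply Finset.prod_dvd_prod_of_subset
      intro i hi
      rw [Finset.mem_insert, Finset.mem_singleton] at hi
      rw [Nat.mem_divisors]
      refine ⟨?_, (Nat.mul_pos hp.pos hq.pos).ne'⟩
      rcases hi with rfl | rfl
      · exact dvd_mul_right _ _
      · exact dvd_mul_left _ _
    have h2 : expand ℤ q (g * (X ^ p - 1)) ∣ expand ℤ q (X ^ (p * q ^ b) - 1) :=
      map_dvd (expand ℤ q) hg
    have e1 : expand ℤ q (X ^ (p * q ^ b) - 1) = (X : ℤ[X]) ^ (p * q ^ (b + 1)) - 1 := by
      rw [map_sub, map_pow, expand_X, map_one, ← pow_mul]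
      congr 2
      ring
    have e2 : expand ℤ q (g * (X ^ p - 1)) = ((X : ℤ[X]) ^ (p * q) - 1) * expand ℤ q g := by
      rw [map_mul, map_sub, map_pow, expand_X, map_one, ← pow_mul, mul_comm q p, mul_comm]
    rw [e1, e2] at h2
    exact (mul_dvd_mul_right h1 _).trans h2
  refine le_trans ?_ (le_B hpos hdvd)
  set F := (cyclotomic p ℤ * cyclotomic q ℤ) * expand ℤ q g with hF
  have hcoef : ∀ m, F.coeff (q * m + (p - 1)) = p * g.coeff m := by
    intro m
    rw [hF, phi_p_geom hp, phi_p_geom hq,
      coeff_mul_expand_special (q := q) (s := p - 1) (by omega), T_coeff]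
    · congr 1
      rw [Finset.sum_congr rfl (g := fun _ => (1 : ℤ))]
      · simp
      · intro i hi
        rw [Finset.mem_range] at hi
        rw [if_pos (by omega)]
    · intro k hk
      rw [T_coeff]
      apply Finset.sum_eq_zero
      intro i hi
      rw [Finset.mem_range] at hi
      rw [if_neg (by omega)]
  have h3 : height g ≤ height F / p := by
    rw [height_le_iff]
    intro k
    rw [Nat.le_div_iff_mul_le hp.pos, mul_comm]
    have := le_height F (q * k + (p - 1))
    rw [hcoef, Int.natAbs_mul, Int.natAbs_natCast] at this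
    exact this
  calc p * height g ≤ p * (height F / p) := Nat.mul_le_mul_left p h3
    _ ≤ _ := Nat.mul_div_le _ _

theorem prod_four {p q : ℕ} (hp : p.Prime) (hq : q.Prime) (hpq : p < q) (s : Finset ℕ)
    (hs : s ⊆ {1, p, q, p * q}) :
    ∏ i ∈ s, cyclotomic i ℤ = (if 1 ∈ s then cyclotomic 1 ℤ else 1) *
      ((if p ∈ s then cyclotomic p ℤ else 1) *
      ((if q ∈ s then cyclotomic q ℤ else 1) * (if p * q ∈ s then cyclotomic (p * q) ℤ else 1))) := by
  have hp2 := hp.two_le
  have a1 : q < p * q := by nlinarith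
  have h1 : (∏ d ∈ s, cyclotomic d ℤ) =
      ∏ d ∈ ({1, p, q, p * q} : Finset ℕ), if d ∈ s then cyclotomic d ℤ else 1 := by
    rw [Finset.prod_ite_mem, Finset.inter_eq_right.mpr hs]
  rw [h1, Finset.prod_insert, Finset.prod_insert, Finset.prod_insert, Finset.prod_singleton]
  · simp only [Finset.mem_singleton]; omega
  · simp only [Finset.mem_insert, Finset.mem_singleton]; omega
  · simp only [Finset.mem_insert, Finset.mem_singleton]; omega

/-- upper bound -/
theorem upper_mul {p q b : ℕ} (hp3 : 3 ≤ p) (hp : p.Prime) (hq : q.Prime) (hpq : p < q) :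
    ∃ g : ℤ[X], g * (X ^ p - 1) ∣ X ^ (p * q ^ b) - 1 ∧ B (p * q ^ (b + 1)) ≤ p * height g := by
  classical
  have hpos : 0 < p * q ^ (b + 1) := Nat.mul_pos hp.pos (pow_pos hq.pos _)
  have hpos' : 0 < p * q ^ b := Nat.mul_pos hp.pos (pow_pos hq.pos _)
  obtain ⟨f, hf, hfB⟩ := B_mem hpos
  rw [← prod_cyclotomic_eq_X_pow_sub_one hpos ℤ] at hf
  obtain ⟨t, ht, hft⟩ := dvd_prod_primes (fun i => cyclotomic i ℤ) _
    (fun i hi => cyclotomic_prime' (Nat.pos_of_mem_divisors hi)) f hf
  have hB : B (p * q ^ (b + 1)) = height (∏ i ∈ t, cyclotomic i ℤ) := by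
    rw [← hfB, height_associated hft]
  set t1 := t.filter (fun i => ¬ q * q ∣ i) with ht1
  set t2 := t.filter (fun i => q * q ∣ i) with ht2
  have hsplit : ∏ i ∈ t, cyclotomic i ℤ = (∏ i ∈ t1, cyclotomic i ℤ) * ∏ i ∈ t2, cyclotomic i ℤ := by
    rw [ht1, ht2, mul_comm, Finset.prod_filter_mul_prod_filter_not]
  set G := ∏ i ∈ t2, cyclotomic (i / q) ℤ with hG
  have hexp : ∏ i ∈ t2, cyclotomic i ℤ = expand ℤ q G := by
    rw [hG, map_prod]
    apply Finset.prod_congr rfl
    intro i hi
    rw [ht2, Finset.mem_filter] at hi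
    obtain ⟨c, rfl⟩ := hi.2
    rw [mul_assoc, Nat.mul_div_cancel_left _ hq.pos,
      cyclotomic_expand_eq_cyclotomic hq (dvd_mul_right q c) ℤ]
    congr 1
    ring
  have hs1 : t1 ⊆ {1, p, q, p * q} := by
    intro i hi
    rw [ht1, Finset.mem_filter] at hi
    have hd := (Nat.mem_divisors.mp (ht hi.1)).1
    -- i ∣ p * q
    have hdv : i ∣ p * q := by
      obtain ⟨u, v, hu, hv, rfl⟩ := (Nat.dvd_mul).mp hd |>.imp (fun u h => h) |> fun ⟨u, v, hu, hv, h⟩ =>
        (⟨u, v, hu, hv, h.symm⟩ : ∃ u v, u ∣ p ∧ v ∣ q ^ (b + 1) ∧ i = u * v)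
      obtain ⟨k, hk, rfl⟩ := (Nat.dvd_prime_pow hq).mp hv
      have hk1 : k ≤ 1 := by
        by_contra hcon
        apply hi.2
        have : q ^ 2 ∣ q ^ k := pow_dvd_pow q (by omega)
        rw [sq] at this
        exact this.mul_left u
      have : q ^ k ∣ q := by
        calc q ^ k ∣ q ^ 1 := pow_dvd_pow q hk1
          _ = q := pow_one q
      exact mul_dvd_mul hu this
    obtain ⟨u, v, hu, hv, huv⟩ := (Nat.dvd_mul).mp hdv
    simp only [Finset.mem_insert, Finset.mem_singleton]
    rcases (Nat.dvd_prime hp).mp hu with rfl | rfl <;>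
      rcases (Nat.dvd_prime hq).mp hv with rfl | rfl <;> simp [← huv]
  refine ⟨G, ?_, ?_⟩
  · -- G (X^p - 1) divides
    have hinj : Set.InjOn (fun i => i / q) (t2 : Set ℕ) := by
      intro i hi j hj hij
      rw [Finset.mem_coe, ht2, Finset.mem_filter] at hi hj
      obtain ⟨c, hc⟩ := hi.2
      obtain ⟨d, hd⟩ := hj.2
      dsimp only at hij
      rw [hc, hd, mul_assoc, mul_assoc, Nat.mul_div_cancel_left _ hq.pos,
        Nat.mul_div_cancel_left _ hq.pos] at hij
      rw [hc, hd, mul_assoc, mul_assoc, hij]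
    have hGi : G = ∏ i ∈ t2.image (fun i => i / q), cyclotomic i ℤ := by
      rw [Finset.prod_image hinj]
    have hXp : (X : ℤ[X]) ^ p - 1 = ∏ i ∈ ({1, p} : Finset ℕ), cyclotomic i ℤ := by
      rw [← prod_cyclotomic_eq_X_pow_sub_one hp.pos ℤ, hp.divisors]
    have hdisj : Disjoint (t2.image (fun i => i / q)) ({1, p} : Finset ℕ) := by
      rw [Finset.disjoint_left]
      intro i hi hi'
      rw [Finset.mem_image] at hi
      obtain ⟨k, hk, rfl⟩ := hi
      rw [ht2, Finset.mem_filter] at hk
      obtain ⟨c, hc⟩ := hk.2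
      have hqd : q ∣ k / q := by
        rw [hc, mul_assoc, Nat.mul_div_cancel_left _ hq.pos]; exact dvd_mul_right _ _
      rw [Finset.mem_insert, Finset.mem_singleton] at hi'
      rcases hi' with h | h
      · rw [h] at hqd
        exact hq.one_lt.ne' (Nat.dvd_one.mp hqd)
      · rw [h] at hqd
        exact not_dvd hq hpq hp hqd
    rw [hGi, hXp, ← Finset.prod_union hdisj, ← prod_cyclotomic_eq_X_pow_sub_one hpos' ℤ]
    apply Finset.prod_dvd_prod_of_subset
    intro i hi
    rw [Nat.mem_divisors]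
    refine ⟨?_, hpos'.ne'⟩
    rw [Finset.mem_union] at hi
    rcases hi with hi | hi
    · rw [Finset.mem_image] at hi
      obtain ⟨k, hk, rfl⟩ := hi
      rw [ht2, Finset.mem_filter] at hk
      have hd := (Nat.mem_divisors.mp (ht hk.1)).1
      obtain ⟨c, hc⟩ := hk.2
      rw [hc, mul_assoc, Nat.mul_div_cancel_left _ hq.pos]
      rw [hc, mul_assoc, pow_succ, ← mul_assoc p, mul_comm (p * q ^ b) q] at hd
      exact Nat.dvd_of_mul_dvd_mul_left hq.pos hd
    · rw [Finset.mem_insert, Finset.mem_singleton] at hi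
      rcases hi with rfl | rfl
      · exact one_dvd _
      · exact dvd_mul_right _ _
  · rw [hB, hsplit, hexp, prod_four hp hq hpq t1 hs1]
    exact height_mul_expand_le hq.pos (cb_all hp3 hp hq hpq _ _ _ _) G

/-- `B(p q^(b+1))` is `p` times the largest height of a `g` with `g (X^p - 1) ∣ X^(p q^b) - 1` -/
theorem main {p q : ℕ} (hp2 : p ≠ 2) (hp : p.Prime) (hq : q.Prime) (hpq : p < q) (b : ℕ) :
    ∃ g : ℤ[X], g * (X ^ p - 1) ∣ X ^ (p * q ^ b) - 1 ∧ B (p * q ^ (b + 1)) = p * height g := by
  have hp3 : 3 ≤ p := by have := hp.two_le; omega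
  obtain ⟨g, hg, hgB⟩ := upper_mul (b := b) hp3 hp hq hpq
  exact ⟨g, hg, le_antisymm hgB (lower_mul hp hq hpq hg)⟩

end Pool.Agent.N399.BH
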